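import Pool.Agent.Helper12.RQ.Goals

/-!
Packet U1 of MP_a2585e_an: comparison of two measures on the line through open intervals.
-/

open MeasureTheory Set

namespace Pool.Agent.Helper86.RQ

open Pool.Agent.Helper12.RQ

/-- the components of a bounded open set are open intervals -/
theorem comp_eq (U : Set ℝ) (hU : IsOpen U) (a b : ℝ) (hsub : U ⊆ Ioo a b) (x : ℝ) (hx : x ∈ U) :
    ∃ c d, a ≤ c ∧ c < d ∧ d ≤ b ∧ connectedComponentIn U x = Ioo c d := by
  set C := connectedComponentIn U x with hC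
  have hCo : IsOpen C := hU.connectedComponentIn
  have hCc : IsConnected C := isConnected_connectedComponentIn_iff.2 hx
  have hCU : C ⊆ U := connectedComponentIn_subset U x
  have hCab : C ⊆ Ioo a b := hCU.trans hsub
  have hbb : BddBelow C := ⟨a, fun y hy => (hCab hy).1.le⟩
  have hba : BddAbove C := ⟨b, fun y hy => (hCab hy).2.le⟩
  have hne : C.Nonempty := hCc.nonempty
  have h1 : Ioo (sInf C) (sSup C) ⊆ C := hCc.Ioo_csInf_csSup_subset hbb hba
  have h2 : C ⊆ Icc (sInf C) (sSup C) := subset_Icc_csInf_csSup hbb hba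
  have hinf : sInf C ∉ C := by
    intro h
    obtain ⟨ε, hε, hball⟩ := Metric.isOpen_iff.1 hCo _ h
    have : sInf C - ε / 2 ∈ C := by
      apply hball
      rw [Metric.mem_ball, Real.dist_eq]
      have : sInf C - ε / 2 - sInf C = -(ε / 2) := by ring
      rw [this, abs_neg, abs_of_pos (by positivity)]
      linarith
    have := csInf_le hbb this
    linarith
  have hsup : sSup C ∉ C := by
    intro h
    obtain ⟨ε, hε, hball⟩ := Metric.isOpen_iff.1 hCo _ h
    have : sSup C + ε / 2 ∈ C := by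
      apply hball
      rw [Metric.mem_ball, Real.dist_eq]
      have : sSup C + ε / 2 - sSup C = ε / 2 := by ring
      rw [this, abs_of_pos (by positivity)]
      linarith
    have := le_csSup hba this
    linarith
  refine ⟨sInf C, sSup C, le_csInf hne fun y hy => (hCab hy).1.le, ?_,
    csSup_le hne fun y hy => (hCab hy).2.le, ?_⟩
  · have hxC : x ∈ C := mem_connectedComponentIn hx
    have h3 := h2 hxC
    have h4 : sInf C ≠ x := fun h => hinf (h ▸ hxC)
    exact (lt_of_le_of_ne h3.1 h4).trans_le h3.2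
  · refine Subset.antisymm (fun y hy => ?_) h1
    have h3 := h2 hy
    exact ⟨lt_of_le_of_ne h3.1 fun h => hinf (h ▸ hy), lt_of_le_of_ne h3.2 fun h => hsup (h ▸ hy)⟩

theorem open_le (μ ν : Measure ℝ) (t₀ t₁ : ℝ)
    (h : ∀ a b, t₀ < a → a < b → b < t₁ → μ (Ioo a b) ≤ ν (Ioo a b)) (a b : ℝ) (ha : t₀ < a)
    (hb : b < t₁) (U : Set ℝ) (hU : IsOpen U) (hsub : U ⊆ Ioo a b) : μ U ≤ ν U := by
  set S : Set (Set ℝ) := (fun x => connectedComponentIn U x) '' U with hS
  have hSU : ⋃₀ S = U := by
    apply Subset.antisymm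
    · rintro y ⟨C, ⟨x, hx, rfl⟩, hy⟩
      exact connectedComponentIn_subset U x hy
    · intro x hx
      exact ⟨_, ⟨x, hx, rfl⟩, mem_connectedComponentIn hx⟩
  have hSo : ∀ C ∈ S, IsOpen C := by
    rintro C ⟨x, hx, rfl⟩
    exact hU.connectedComponentIn
  have hSn : ∀ C ∈ S, C.Nonempty := by
    rintro C ⟨x, hx, rfl⟩
    exact ⟨x, mem_connectedComponentIn hx⟩
  have hSd : S.Pairwise Disjoint := by
    rintro C ⟨x, hx, rfl⟩ D ⟨y, hy, rfl⟩ hne
    rw [Set.disjoint_left]
    intro z hz1 hz2
    apply hne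
    show connectedComponentIn U x = connectedComponentIn U y
    rw [connectedComponentIn_eq hz1, connectedComponentIn_eq hz2]
  have hSc : S.Countable := by
    apply Set.PairwiseDisjoint.countable_of_isOpen (s := id) (a := S)
    · intro C hC D hD hne
      exact hSd hC hD hne
    · exact hSo
    · exact hSn
  rw [← hSU, measure_sUnion hSc hSd fun C hC => (hSo C hC).measurableSet,
    measure_sUnion hSc hSd fun C hC => (hSo C hC).measurableSet]
  refine ENNReal.tsum_le_tsum ?_
  rintro ⟨C, x, hx, rfl⟩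
  obtain ⟨c, d, hac, hcd, hdb, heq⟩ := comp_eq U hU a b hsub x hx
  show μ (connectedComponentIn U x) ≤ ν (connectedComponentIn U x)
  rw [heq]
  exact h c d (ha.trans_le hac) hcd (hdb.trans_lt hb)

theorem inner_le (μ ν : Measure ℝ) (t₀ t₁ : ℝ)
    (hfin : ∀ a b, t₀ < a → a < b → b < t₁ → ν (Ioo a b) < ⊤)
    (h : ∀ a b, t₀ < a → a < b → b < t₁ → μ (Ioo a b) ≤ ν (Ioo a b)) (a b : ℝ) (ha : t₀ < a)
    (hab : a < b) (hb : b < t₁) (B : Set ℝ) (hB : MeasurableSet B) (hsub : B ⊆ Ioo a b) :
    μ B ≤ ν B := by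
  have hfi : IsFiniteMeasure (ν.restrict (Ioo a b)) := by
    constructor
    rw [Measure.restrict_apply_univ]
    exact hfin a b ha hab hb
  have hνB : ν.restrict (Ioo a b) B = ν B := by
    rw [Measure.restrict_apply hB, inter_eq_left.2 hsub]
  refine le_of_forall_gt fun r hr => ?_
  rw [← hνB] at hr
  obtain ⟨U, hBU, hU, hUr⟩ := Set.exists_isOpen_lt_of_lt B r hr
  have hle := open_le μ ν t₀ t₁ h a b ha hb (U ∩ Ioo a b) (hU.inter isOpen_Ioo) inter_subset_right
  rw [Measure.restrict_apply hU.measurableSet] at hUr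
  calc μ B ≤ μ (U ∩ Ioo a b) := measure_mono (subset_inter hBU hsub)
    _ ≤ ν (U ∩ Ioo a b) := hle
    _ < r := hUr

theorem u1 : StmtU1 := by
  intro μ ν t₀ t₁ hfin h B hB hsub
  by_cases ht : t₀ < t₁
  · set s : ℕ → Set ℝ := fun n => B ∩ Ioo (t₀ + (t₁ - t₀) / ((n : ℝ) + 3))
      (t₁ - (t₁ - t₀) / ((n : ℝ) + 3)) with hs
    have hmono : Monotone s := by
      intro m n hmn
      have hmn' : (m : ℝ) ≤ n := by exact_mod_cast hmn
      have h1 : (t₁ - t₀) / ((n : ℝ) + 3) ≤ (t₁ - t₀) / ((m : ℝ) + 3) :=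
        div_le_div_of_nonneg_left (by linarith) (by positivity) (by linarith)
      exact inter_subset_inter_right _ (Ioo_subset_Ioo (by linarith) (by linarith))
    have hun : ⋃ n, s n = B := by
      apply Subset.antisymm
      · exact iUnion_subset fun n => inter_subset_left
      · intro x hx
        obtain ⟨hx0, hx1⟩ := hsub hx
        have hpos : 0 < min (x - t₀) (t₁ - x) := lt_min (by linarith) (by linarith)
        obtain ⟨n, hn⟩ := exists_nat_gt ((t₁ - t₀) / min (x - t₀) (t₁ - x))
        have h2 : (t₁ - t₀) / ((n : ℝ) + 3) < min (x - t₀) (t₁ - x) := by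
          rw [div_lt_iff₀ (by positivity)]
          rw [div_lt_iff₀ hpos] at hn
          nlinarith
        refine mem_iUnion.2 ⟨n, hx, ?_, ?_⟩
        · have := h2.trans_le (min_le_left _ _)
          linarith
        · have := h2.trans_le (min_le_right _ _)
          linarith
    rw [← hun, hmono.measure_iUnion]
    refine iSup_le fun n => ?_
    have hpos : 0 < (t₁ - t₀) / ((n : ℝ) + 3) := div_pos (by linarith) (by positivity)
    have hlt : (t₁ - t₀) / ((n : ℝ) + 3) < (t₁ - t₀) / 2 :=
      div_lt_div_of_pos_left (by linarith) (by norm_num) (by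
        have : (0 : ℝ) ≤ n := Nat.cast_nonneg n
        linarith)
    calc μ (s n) ≤ ν (s n) :=
          inner_le μ ν t₀ t₁ hfin h _ _ (by linarith) (by linarith) (by linarith) _
            (hB.inter measurableSet_Ioo) inter_subset_right
      _ ≤ ν (⋃ n, s n) := measure_mono (subset_iUnion s n)
  · have hBe : B = ∅ := by
      rw [eq_empty_iff_forall_notMem]
      intro x hx
      have := hsub hx
      exact ht (this.1.trans this.2)
    rw [hBe]
    simp

end Pool.Agent.Helper86.RQ
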